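import Mathlib

set_option autoImplicit false

namespace Pool.Agent.Results.MP_c8df5e_gt.Products

open Set Topology

universe u

/-- specialization order: `x ≤ y` iff `x ∈ cl {y}`. -/
def SLe {X : Type u} [TopologicalSpace X] (x y : X) : Prop := x ∈ closure ({y} : Set X)

/-- `s` is the supremum of `D` in the specialization order. -/
def IsSup {X : Type u} [TopologicalSpace X] (D : Set X) (s : X) : Prop :=
  (∀ d ∈ D, SLe d s) ∧ ∀ t, (∀ d ∈ D, SLe d t) → SLe s t

/-- d-space (monotone convergence space). -/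
def DSpace (X : Type u) [TopologicalSpace X] : Prop :=
  T0Space X ∧ ∀ D : Set X, D.Nonempty → DirectedOn SLe D →
    ∃ s, IsSup D s ∧ ∀ U : Set X, IsOpen U → s ∈ U → (D ∩ U).Nonempty

/-- `(R, μ)` is a d-reflection of `X`. -/
def IsDReflection {X R : Type u} [TopologicalSpace X] [TopologicalSpace R] (μ : X → R) : Prop :=
  DSpace R ∧ Continuous μ ∧ ∀ (Y : Type u) [TopologicalSpace Y], DSpace Y →
    ∀ f : X → Y, Continuous f → ∃! g : R → Y, Continuous g ∧ g ∘ μ = f

section
variable {X Y : Type u} [TopologicalSpace X] [TopologicalSpace Y]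

lemma sle_iff {x y : X} : SLe x y ↔ y ⤳ x := specializes_iff_mem_closure.symm

lemma SLe.map {x y : X} (h : SLe x y) {f : X → Y} (hf : Continuous f) : SLe (f x) (f y) :=
  sle_iff.2 ((sle_iff.1 h).map hf)

lemma SLe.mem_open {x y : X} (h : SLe x y) {U : Set X} (hU : IsOpen U) (hx : x ∈ U) : y ∈ U :=
  (sle_iff.1 h).mem_open hU hx

lemma SLe.trans {x y z : X} (h : SLe x y) (h' : SLe y z) : SLe x z :=
  sle_iff.2 ((sle_iff.1 h').trans (sle_iff.1 h))

lemma gen_unique [T0Space Y] {y z : Y}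
    (h : closure ({y} : Set Y) = closure {z}) : y = z :=
  (inseparable_iff_closure_eq.2 h).eq

lemma dspace_iff : DSpace X ↔ T0Space X ∧ ∀ D : Set X, D.Nonempty → DirectedOn SLe D →
    ∃ s, closure D = closure {s} := by
  refine and_congr_right fun _ => forall₃_congr fun D _ _ => exists_congr fun s => ⟨?_, ?_⟩
  · rintro ⟨h1, h2⟩
    refine subset_antisymm (closure_minimal h1.1 isClosed_closure)
      (closure_minimal (singleton_subset_iff.2 ?_) isClosed_closure)
    exact mem_closure_iff.2 fun U hU hs => inter_comm D U ▸ h2 U hU hs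
  · intro h
    have hs : s ∈ closure D := h ▸ subset_closure rfl
    refine ⟨⟨fun d hd => ?_, fun t ht => closure_minimal ht isClosed_closure hs⟩,
      fun U hU h' => inter_comm U D ▸ mem_closure_iff.1 hs U hU h'⟩
    show d ∈ closure {s}
    rw [← h]; exact subset_closure hd

def DC (G : Set X) : Prop :=
  ∀ D ⊆ G, D.Nonempty → DirectedOn SLe D → ∀ s, closure D = closure {s} → s ∈ G

lemma dir_image {D : Set X} (h : DirectedOn SLe D) {f : X → Y} (hf : Continuous f) :
    DirectedOn SLe (f '' D) := by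
  rintro _ ⟨a, ha, rfl⟩ _ ⟨b, hb, rfl⟩
  obtain ⟨c, hc, h1, h2⟩ := h a ha b hb
  exact ⟨f c, ⟨c, hc, rfl⟩, h1.map hf, h2.map hf⟩

lemma cl_image {D : Set X} {s : X} (h : closure D = closure {s}) {f : X → Y} (hf : Continuous f) :
    closure (f '' D) = closure {f s} := by
  rw [← closure_image_closure hf, h, closure_image_closure hf, image_singleton]

lemma DC.preimage {G : Set Y} (h : DC G) {f : X → Y} (hf : Continuous f) : DC (f ⁻¹' G) :=
  fun D hD hne hdir s hs =>
    h (f '' D) (image_subset_iff.2 hD) (hne.image f) (dir_image hdir hf) (f s) (cl_image hs hf)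

lemma DC.dspace (hX : DSpace X) {G : Set X} (h : DC G) : DSpace G := by
  have := hX.1
  refine dspace_iff.2 ⟨inferInstance, fun D hne hdir => ?_⟩
  have hd := dir_image hdir continuous_subtype_val
  obtain ⟨s, hs⟩ := (dspace_iff.1 hX).2 _ (hne.image _) hd
  refine ⟨⟨s, h _ (Subtype.coe_image_subset G D) (hne.image _) hd s hs⟩, ?_⟩
  rw [IsEmbedding.subtypeVal.closure_eq_preimage_closure_image,
    IsEmbedding.subtypeVal.closure_eq_preimage_closure_image, hs, image_singleton]

lemma DC_eq [T0Space Y] {g h : X → Y} (hg : Continuous g) (hh : Continuous h) :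
    DC {x | g x = h x} := by
  intro D hD _ _ s hs
  refine gen_unique ?_
  rw [← cl_image hs hg, ← cl_image hs hh, image_congr fun x hx => hD hx]

lemma IsDReflection.dense {μ : X → Y} (h : IsDReflection μ) {G : Set Y} (hG : DC G)
    (h' : ∀ x, μ x ∈ G) (y : Y) : y ∈ G := by
  obtain ⟨r, ⟨hr, hr'⟩, -⟩ := h.2.2 G (hG.dspace h.1) (fun x => ⟨μ x, h' x⟩) (h.2.1.subtype_mk _)
  have := (h.2.2 Y h.1 μ h.2.1).unique (y₁ := Subtype.val ∘ r) (y₂ := id)
    ⟨continuous_subtype_val.comp hr, by rw [Function.comp_assoc, hr']; rfl⟩ ⟨continuous_id, rfl⟩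
  have h2 : (r y).1 = y := congrFun this y
  exact h2 ▸ (r y).2

lemma IsDReflection.below {μ : X → Y} (h : IsDReflection μ) {V : Set Y} (hV : IsOpen V) (y : Y) :
    y ∈ V → ∃ x, μ x ∈ V ∧ SLe (μ x) y := by
  refine h.dense (G := {y | y ∈ V → ∃ x, μ x ∈ V ∧ SLe (μ x) y}) ?_
    (fun x hx => ⟨x, hx, subset_closure rfl⟩) y
  intro D hD _ _ s hs hV'
  have h1 : s ∈ closure D := hs ▸ subset_closure rfl
  obtain ⟨d, h2, h3⟩ := mem_closure_iff.1 h1 V hV hV'
  obtain ⟨x, h4, h5⟩ := hD h3 h2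
  exact ⟨x, h4, h5.trans (hs ▸ subset_closure h3 : d ∈ closure {s})⟩

lemma dspace_prop : DSpace (ULift.{u} Prop) := by
  have ho : IsOpen {q : ULift.{u} Prop | q.down} := continuous_Prop.1 continuous_uliftDown
  refine dspace_iff.2 ⟨⟨fun a b h => ULift.ext _ _ (propext (h.mem_open_iff ho))⟩,
    fun D hne _ => ?_⟩
  by_cases h : ULift.up True ∈ D
  · refine ⟨ULift.up True, subset_antisymm (closure_minimal (fun a _ => ?_) isClosed_closure)
      (closure_mono (singleton_subset_iff.2 h))⟩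
    rw [← specializes_iff_mem_closure]
    refine (Homeomorph.ulift.isInducing.specializes_iff).1 ?_
    exact specializes_iff_forall_open.2 fun s hs ha => by
      induction hs with
      | basic s hs => cases hs; rfl
      | univ => trivial
      | inter s t _ _ h1 h2 => exact ⟨h1 ha.1, h2 ha.2⟩
      | sUnion S _ h1 => exact ha.imp fun s hs => ⟨hs.1, h1 s hs.1 hs.2⟩
  · obtain ⟨a, ha⟩ := hne
    refine ⟨a, ?_⟩
    congr 1
    have key : ∀ b ∈ D, b = ULift.up False := fun b hb =>
      ULift.ext _ _ (eq_false fun hb' => h (by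
        rw [show ULift.up True = b from ULift.ext _ _ (eq_true hb').symm]; exact hb))
    exact subset_antisymm (fun b hb => (key b hb).trans (key a ha).symm)
      (singleton_subset_iff.2 ha)

lemma IsDReflection.ext_open {μ : X → Y} (h : IsDReflection μ) {U : Set X} (hU : IsOpen U) :
    ∃ V, IsOpen V ∧ μ ⁻¹' V = U := by
  obtain ⟨g, ⟨hg, hg'⟩, -⟩ := h.2.2 _ dspace_prop (fun x => ULift.up (x ∈ U))
    (continuous_uliftUp.comp (continuous_Prop.2 hU))
  refine ⟨{y | (g y).down}, continuous_Prop.1 (continuous_uliftDown.comp hg), ?_⟩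
  ext x
  show (g (μ x)).down ↔ _
  rw [show g (μ x) = ULift.up (x ∈ U) from congrFun hg' x]

end

section
variable {I : Type u} {X R : I → Type u} [∀ i, TopologicalSpace (X i)]
  [∀ i, TopologicalSpace (R i)] {μ : ∀ i, X i → R i}

lemma sle_pi {x y : ∀ i, R i} : SLe x y ↔ ∀ i, SLe (x i) (y i) := by
  simp only [sle_iff, specializes_pi]

lemma dspace_pi (h : ∀ i, DSpace (R i)) : DSpace (∀ i, R i) := by
  have := fun i => (h i).1
  refine dspace_iff.2 ⟨inferInstance, fun D hne hdir => ?_⟩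
  choose s hs using fun i => (dspace_iff.1 (h i)).2 _ (hne.image _)
    (dir_image hdir (continuous_apply i))
  refine ⟨s, subset_antisymm (closure_minimal (fun d hd => sle_pi.2 fun i => ?_) isClosed_closure)
    (closure_minimal (singleton_subset_iff.2 ?_) isClosed_closure)⟩
  · show d i ∈ closure {s i}
    rw [← hs]; exact subset_closure ⟨d, hd, rfl⟩
  · refine mem_closure_iff.2 fun U hU hsU => ?_
    obtain ⟨F, u, hu, hF⟩ := isOpen_pi_iff.1 hU s hsU
    have key : ∀ T : Finset I, T ⊆ F → ∃ d ∈ D, ∀ i ∈ T, d i ∈ u i := by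
      classical
      intro T
      induction T using Finset.induction_on with
      | empty => exact fun _ => hne.imp fun d hd => ⟨hd, by simp⟩
      | insert j T _ ih =>
        intro hT
        obtain ⟨d, hd, h1⟩ := ih ((Finset.subset_insert j T).trans hT)
        have hj := hu j (hT (Finset.mem_insert_self j T))
        have h2 : s j ∈ closure ((fun p : ∀ i, R i => p j) '' D) := by
          rw [hs]; exact subset_closure rfl
        obtain ⟨_, h3, e, he, rfl⟩ := mem_closure_iff.1 h2 _ hj.1 hj.2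
        obtain ⟨c, hc, h4, h5⟩ := hdir d hd e he
        refine ⟨c, hc, fun i hi => ?_⟩
        rcases Finset.mem_insert.1 hi with rfl | hi
        · exact (sle_pi.1 h5 i).mem_open hj.1 h3
        · exact (sle_pi.1 h4 i).mem_open (hu i (hT (Finset.mem_insert_of_mem hi))).1 (h1 i hi)
    obtain ⟨d, hd, h1⟩ := key F subset_rfl
    exact ⟨d, hF h1, hd⟩

lemma pi_dense (h : ∀ i, IsDReflection (μ i)) {G : Set (∀ i, R i)} (hG : DC G)
    (h' : ∀ x : ∀ i, X i, (fun i => μ i (x i)) ∈ G) (y : ∀ i, R i) : y ∈ G := by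
  classical
  have step : ∀ (F : Finset I) (y : ∀ i, R i), (∀ i ∉ F, y i ∈ range (μ i)) → y ∈ G := by
    intro F
    induction F using Finset.induction_on with
    | empty =>
      intro y hy
      choose x hx using fun i => hy i (by simp)
      rw [← funext hx]; exact h' x
    | insert j F _ ih =>
      intro y hy
      have := (h j).dense (hG.preimage (f := fun t => Function.update y j t)
        (continuous_const.update j continuous_id)) (fun x => ih _ fun i hi => by
          by_cases hij : i = j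
          · subst hij; simp
          · simp only [Function.update_of_ne hij]; exact hy i (by simp [hij, hi])) (y j)
      simpa using this
  choose x _ hx using fun i => (h i).below isOpen_univ (y i) trivial
  let z : Finset I → ∀ i, R i := fun F i => if i ∈ F then y i else μ i (x i)
  have hz : ∀ F, SLe (z F) y := fun F => sle_pi.2 fun i => by
    simp only [z]
    split_ifs
    · exact subset_closure rfl
    · exact hx i
  have hm : ∀ F F', F ⊆ F' → SLe (z F) (z F') := fun F F' hF => sle_pi.2 fun i => by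
    simp only [z]
    by_cases h1 : i ∈ F
    · rw [if_pos h1, if_pos (hF h1)]; exact subset_closure rfl
    · rw [if_neg h1]
      split_ifs
      · exact hx i
      · exact subset_closure rfl
  refine hG (range z) ?_ (range_nonempty z) ?_ y (subset_antisymm
    (closure_minimal (range_subset_iff.2 hz) isClosed_closure)
    (closure_minimal (singleton_subset_iff.2 ?_) isClosed_closure))
  · rintro _ ⟨F, rfl⟩
    exact step F _ fun i hi => by simp [z, hi]
  · rintro _ ⟨F, rfl⟩ _ ⟨F', rfl⟩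
    exact ⟨_, ⟨F ∪ F', rfl⟩, hm _ _ Finset.subset_union_left, hm _ _ Finset.subset_union_right⟩
  · refine mem_closure_iff.2 fun U hU hy => ?_
    obtain ⟨F, u, hu, hF⟩ := isOpen_pi_iff.1 hU y hy
    exact ⟨z F, hF fun i hi => by simpa [z, show i ∈ F from hi] using (hu i hi).2, F, rfl⟩

lemma pi_open (h : ∀ i, IsDReflection (μ i)) {W : Set (∀ i, X i)} (hW : IsOpen W) :
    IsOpen {y : ∀ i, R i | ∃ x ∈ W, SLe (fun i => μ i (x i)) y} := by
  classical
  refine isOpen_iff_forall_mem_open.2 ?_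
  rintro y ⟨x, hx, hxy⟩
  obtain ⟨F, u, hu, hF⟩ := isOpen_pi_iff.1 hW x hx
  have : ∀ i, ∃ V, IsOpen V ∧ (i ∈ F → μ i ⁻¹' V = u i) := by
    intro i
    by_cases hi : i ∈ F
    · exact ((h i).ext_open (hu i hi).1).imp fun V hV => ⟨hV.1, fun _ => hV.2⟩
    · exact ⟨univ, isOpen_univ, fun h => absurd h hi⟩
  choose V hV hV' using this
  refine ⟨(F : Set I).pi V, fun z hz => ?_, isOpen_set_pi F.finite_toSet fun i _ => hV i,
    fun i hi => (sle_pi.1 hxy i).mem_open (hV i) ?_⟩
  · have : ∀ i, ∃ w, (i ∈ F → w ∈ u i) ∧ SLe (μ i w) (z i) := by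
      intro i
      by_cases hi : i ∈ F
      · obtain ⟨w, h1, h2⟩ := (h i).below (hV i) (z i) (hz i hi)
        exact ⟨w, fun _ => hV' i hi ▸ h1, h2⟩
      · obtain ⟨w, -, h2⟩ := (h i).below isOpen_univ (z i) trivial
        exact ⟨w, fun h => absurd h hi, h2⟩
    choose w h1 h2 using this
    exact ⟨w, hF h1, sle_pi.2 h2⟩
  · have := (hu i hi).2
    rw [← hV' i hi] at this
    exact this

lemma pi_refl (h : ∀ i, IsDReflection (μ i)) :
    IsDReflection (fun (x : ∀ i, X i) (i : I) => μ i (x i)) := by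
  have hc : Continuous (fun (x : ∀ i, X i) (i : I) => μ i (x i)) :=
    continuous_pi fun i => (h i).2.1.comp (continuous_apply i)
  refine ⟨dspace_pi fun i => (h i).1, hc, fun Y _ hY f hf => ?_⟩
  have := hY.1
  let O : Set Y → Set (∀ i, R i) := fun V => {y | ∃ x ∈ f ⁻¹' V, SLe (fun i => μ i (x i)) y}
  have hO : ∀ V, IsOpen V → IsOpen (O V) := fun V hV => pi_open h (hV.preimage hf)
  have hx : ∀ x V, IsOpen V → (f x ∈ V ↔ (fun i => μ i (x i)) ∈ O V) := by
    intro x V hV
    refine ⟨fun h => ⟨x, h, subset_closure rfl⟩, ?_⟩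
    rintro ⟨w, h1, h2⟩
    refine (SLe.map (sle_pi.2 fun i => ?_) hf).mem_open hV h1
    refine mem_closure_iff.2 fun U hU hw => ⟨x i, ?_, rfl⟩
    obtain ⟨U', h3, rfl⟩ := (h i).ext_open hU
    exact (sle_pi.1 h2 i).mem_open h3 hw
  have key : ∀ y, ∃ z : Y, ∀ V, IsOpen V → (z ∈ V ↔ y ∈ O V) := by
    refine pi_dense h (G := {y | ∃ z : Y, ∀ V, IsOpen V → (z ∈ V ↔ y ∈ O V)}) ?_
      fun x => ⟨f x, hx x⟩
    intro D hD hne hdir s hs
    choose z hz using fun d : D => hD d.2
    have := hne.to_subtype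
    obtain ⟨t, ht⟩ := (dspace_iff.1 hY).2 (range z) (range_nonempty z) (by
      have key : ∀ a b : D, SLe a.1 b.1 → SLe (z a) (z b) := fun a b hab =>
        mem_closure_iff.2 fun V hV ha => ⟨_, (hz b V hV).2
          (hab.mem_open (hO V hV) ((hz a V hV).1 ha)), rfl⟩
      rintro _ ⟨a, rfl⟩ _ ⟨b, rfl⟩
      obtain ⟨c, hc, h1, h2⟩ := hdir a a.2 b b.2
      exact ⟨_, ⟨⟨c, hc⟩, rfl⟩, key a ⟨c, hc⟩ h1, key b ⟨c, hc⟩ h2⟩)
    refine ⟨t, fun V hV => ?_⟩
    rw [← singleton_inter_nonempty, ← closure_inter_open_nonempty_iff hV, ← ht,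
      closure_inter_open_nonempty_iff hV, ← singleton_inter_nonempty (a := s),
      ← closure_inter_open_nonempty_iff (hO V hV), ← hs, closure_inter_open_nonempty_iff (hO V hV)]
    constructor
    · rintro ⟨_, ⟨d, rfl⟩, h1⟩
      exact ⟨d, d.2, (hz d V hV).1 h1⟩
    · rintro ⟨d, h1, h2⟩
      exact ⟨_, ⟨⟨d, h1⟩, rfl⟩, (hz _ V hV).2 h2⟩
  choose g hg using key
  have hgc : Continuous g := continuous_def.2 fun V hV => by
    convert hO V hV using 1
    ext y; exact hg y V hV
  have hgf : ∀ x, g (fun i => μ i (x i)) = f x := fun x =>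
    Inseparable.eq (inseparable_iff_forall_isOpen.2 fun V hV => (hg _ V hV).trans (hx x V hV).symm)
  refine ⟨g, ⟨hgc, funext hgf⟩, ?_⟩
  rintro g' ⟨h1, h2⟩
  funext y
  exact pi_dense h (DC_eq h1 hgc) (fun x => (congrFun h2 x).trans (hgf x).symm) y

end

theorem result (I : Type u) (X R : I → Type u) [∀ i, TopologicalSpace (X i)] [∀ i, T0Space (X i)]
    [∀ i, TopologicalSpace (R i)] (μ : ∀ i, X i → R i) (h : ∀ i, IsDReflection (μ i))
    (S : Type u) [TopologicalSpace S] (ν : (∀ i, X i) → S) (hν : IsDReflection ν) :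
    ∃ e : S ≃ₜ (∀ i, R i), ∀ x i, e (ν x) i = μ i (x i) := by
  have hp := pi_refl h
  obtain ⟨g, ⟨hg, hg'⟩, -⟩ := hν.2.2 _ hp.1 _ hp.2.1
  obtain ⟨k, ⟨hk, hk'⟩, -⟩ := hp.2.2 _ hν.1 _ hν.2.1
  have h1 := (hν.2.2 _ hν.1 _ hν.2.1).unique (y₁ := k ∘ g) (y₂ := id)
    ⟨hk.comp hg, by rw [Function.comp_assoc, hg', hk']⟩ ⟨continuous_id, rfl⟩
  have h2 := (hp.2.2 _ hp.1 _ hp.2.1).unique (y₁ := g ∘ k) (y₂ := id)
    ⟨hg.comp hk, by rw [Function.comp_assoc, hk', hg']⟩ ⟨continuous_id, rfl⟩
  exact ⟨⟨⟨g, k, congrFun h1, congrFun h2⟩, hg, hk⟩, fun x i => congrFun (congrFun hg' x) i⟩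

end Pool.Agent.Results.MP_c8df5e_gt.Products
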